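import Pool.Agent.N811.IS.Gp

/-!
# The sharp form of the Bourgain-Chang theorem

Bourgain and Chang proved that for every `b` there is `k` with `max (|kA|, |A^k|) ≥ |A|^b` for all
finite nonempty sets `A` of integers. Here the least such `k` is determined up to a bounded factor
under the `b`-th power: it lies between `(b log b / 16)^b` and `(100 b log b)^b`. In other words the
best exponent for `N`-fold sums and products is `log N / (log log N + O(1))`, both bounds explicit.
The lower bound for the exponent holds in all the rings `ℤ^m` (and `R^m` for unique factorisation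
domains `R`) with the same exponent, and there it is optimal even if constants are allowed.

Method. For a finite subset `A` of an abelian group let `ρ(A)` be the best constant in
`|A + X| ≥ ρ(A) |X|^(1 - 1/t)` for all finite nonempty `X`. If `H` is a subgroup, `A'` is in `H` and
`A₀` does not meet `H` then `ρ(A' ∪ A₀) ≥ ρ(A') + (2^(1/t) - 1) ρ(A₀)`. An induction over valuation
classes turns this into `|A|^(1+β) |X|^(1-1/t) ≤ |A + X| |A^n|^β`, and this is iterated with
`X = (j-1) A`. The examples are the sets of all `2^i 3^j`, `i, j < M`, and geometric progressions.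
-/

set_option autoImplicit false

namespace Pool.Agent.Results.MP_120218_co.BourgainChangSharp

open Finset Pool.Agent.N811.IS

/-- `S` contains `1`, is closed under products, does not contain `0`, and associated elements of `S`
are equal (for example the positive integers, or the monic polynomials over a field) -/
def IsRep {R : Type} [CommRing R] (S : Set R) : Prop :=
  (1 : R) ∈ S ∧ (∀ a ∈ S, ∀ b ∈ S, a * b ∈ S) ∧ (∀ a ∈ S, a ≠ 0) ∧
    ∀ a ∈ S, ∀ b ∈ S, Associated a b → a = b

/-- The sharp form of the Bourgain-Chang theorem. -/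
theorem result :
    -- (1) sums and iterated products in `R^m`
    (∀ (R : Type) [CommRing R] [IsDomain R] [UniqueFactorizationMonoid R] [DecidableEq R]
      (S : Set R), IsRep S → ∀ (m k n : ℕ) (t β : ℝ), 2 ≤ n → 2 ≤ t →
      1 / (2 ^ (1 / t) - 1) ≤ ((n : ℝ) - (n - 1) * (2 ^ (1 / t) - 1)) ^ β →
      ∀ A : Finset (Fin m → R), A.Nonempty → (∀ a ∈ A, ∀ j, a j ∈ S) →
        (A.card : ℝ) ^ ((1 + β) * (t * (1 - (1 - 1 / t) ^ k))) ≤
          (((Fintype.piFinset fun _ : Fin k => A).image fun f => ∑ i, f i).card : ℝ) *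
          (((Fintype.piFinset fun _ : Fin n => A).image fun f => ∏ i, f i).card : ℝ) ^
            (β * (t * (1 - (1 - 1 / t) ^ k)))) ∧
    -- (2) the exponent for `N`-fold sums and products, uniform in the dimension
    (∀ (R : Type) [CommRing R] [IsDomain R] [UniqueFactorizationMonoid R] [DecidableEq R]
      (S : Set R), IsRep S → ∀ m N : ℕ, 2 ≤ N →
      ∀ A : Finset (Fin m → R), A.Nonempty → (∀ a ∈ A, ∀ j, a j ∈ S) →
        (A.card : ℝ) ^ (Real.log N / (Real.log (Real.log N) + 7 / 5)) ≤
          max (((Fintype.piFinset fun _ : Fin N => A).image fun f => ∑ i, f i).card : ℝ)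
            (((Fintype.piFinset fun _ : Fin N => A).image fun f => ∏ i, f i).card : ℝ)) ∧
    -- (3) all finite nonempty sets of integers
    (∀ N : ℕ, 2 ≤ N → ∀ A : Finset ℤ, A.Nonempty →
      (A.card : ℝ) ^ (Real.log N / (Real.log (Real.log N) + 5 / 2)) ≤
        max (((Fintype.piFinset fun _ : Fin N => A).image fun f => ∑ i, f i).card : ℝ)
          (((Fintype.piFinset fun _ : Fin N => A).image fun f => ∏ i, f i).card : ℝ)) ∧
    -- (4) the exponent is sharp up to `O(1)` in the denominator
    (∀ N : ℕ, Real.exp 12 ≤ N → ∃ A : Finset ℤ, 2 ≤ A.card ∧ (∀ a ∈ A, 0 < a) ∧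
      max (((Fintype.piFinset fun _ : Fin N => A).image fun f => ∑ i, f i).card : ℝ)
          (((Fintype.piFinset fun _ : Fin N => A).image fun f => ∏ i, f i).card : ℝ) ≤
        (A.card : ℝ) ^ (Real.log N / (Real.log (Real.log N) - 1))) ∧
    -- (5) in the rings `ℤ^m` this remains so if constants are allowed
    (∀ N : ℕ, Real.exp 12 ≤ N → ∀ e C : ℝ, Real.log N / (Real.log (Real.log N) - 1) < e → 0 < C →
      ∃ (m : ℕ) (A : Finset (Fin m → ℤ)), A.Nonempty ∧ (∀ a ∈ A, ∀ j, 0 < a j) ∧
      max (((Fintype.piFinset fun _ : Fin N => A).image fun f => ∑ i, f i).card : ℝ)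
          (((Fintype.piFinset fun _ : Fin N => A).image fun f => ∏ i, f i).card : ℝ) <
        C * (A.card : ℝ) ^ e) ∧
    -- (6) the Bourgain-Chang function
    (∀ b : ℝ, 2 ≤ b →
      (∀ k : ℕ, (100 * (b * Real.log b)) ^ b ≤ k → ∀ A : Finset ℤ, A.Nonempty →
        (A.card : ℝ) ^ b ≤
          max (((Fintype.piFinset fun _ : Fin k => A).image fun f => ∑ i, f i).card : ℝ)
            (((Fintype.piFinset fun _ : Fin k => A).image fun f => ∏ i, f i).card : ℝ)) ∧
      ∀ k : ℕ, 1 ≤ k → (k : ℝ) ≤ (b * Real.log b / 16) ^ b →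
        ∃ A : Finset ℤ, A.Nonempty ∧ (∀ a ∈ A, 0 < a) ∧
          max (((Fintype.piFinset fun _ : Fin k => A).image fun f => ∑ i, f i).card : ℝ)
            (((Fintype.piFinset fun _ : Fin k => A).image fun f => ∏ i, f i).card : ℝ) <
          (A.card : ℝ) ^ b) ∧
    -- (7) the threshold for `|kA| ≥ |A|^(αk)` or `|A^n| ≥ |A|^b`
    (∀ (k n : ℕ) (α b : ℝ), 0 < α → α < 1 → 1 < b →
      (4 ≤ k → (2 * k - 1 : ℝ) ^ ((b - 1) / (1 - α)) ≤ n →
        ∀ A : Finset ℤ, A.Nonempty → (∀ a ∈ A, 0 < a) →
          (A.card : ℝ) ^ (α * k) ≤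
              (((Fintype.piFinset fun _ : Fin k => A).image fun f => ∑ i, f i).card : ℝ) ∨
            (A.card : ℝ) ^ b ≤
              (((Fintype.piFinset fun _ : Fin n => A).image fun f => ∏ i, f i).card : ℝ)) ∧
      ((11 : ℝ) ≤ (k : ℝ) ^ α → 1 ≤ n → (n : ℝ) ≤ ((k : ℝ) / 11) ^ ((b - 1) / (1 - α)) →
        ∃ A : Finset ℤ, A.Nonempty ∧ (∀ a ∈ A, 0 < a) ∧
          (((Fintype.piFinset fun _ : Fin k => A).image fun f => ∑ i, f i).card : ℝ) <
              (A.card : ℝ) ^ (α * k) ∧
            (((Fintype.piFinset fun _ : Fin n => A).image fun f => ∏ i, f i).card : ℝ) <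
              (A.card : ℝ) ^ b)) := by
  refine ⟨?_, ?_, ?_, ?_, ?_, ?_, ?_⟩
  · intro R _ _ _ _ S hS m k n t β hn ht hβ A hA hAS
    have ht0 : 0 < t := by linarith
    have h1t : 1 / t ≤ 1 / 2 := one_div_le_one_div_of_le (by norm_num) ht
    have h1t0 : 0 < 1 / t := by positivity
    have e : 1 - (1 - 1 / t) = 1 / t := by ring
    have hc : 0 < (2:ℝ) ^ (1 / t) - 1 := by
      have := Real.one_lt_rpow (show (1:ℝ) < 2 by norm_num) h1t0
      linarith
    have h := chain (vrPi (vrUFD S hS.1 hS.2.1 hS.2.2.1 hS.2.2.2) m) hn (θ := 1 - 1 / t)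
      (c := 2 ^ (1 / t) - 1) (by linarith) (by linarith) hc (by rw [e]) hβ A hA hAS k
    have e2 : (1 - (1 - 1 / t) ^ k) / (1 - (1 - 1 / t)) = t * (1 - (1 - 1 / t) ^ k) := by
      rw [e]; field_simp
    rw [e2] at h
    exact h
  · intro R _ _ _ _ S hS m N hN A hA hAS
    exact low (vrPi (vrUFD S hS.1 hS.2.1 hS.2.2.1 hS.2.2.2) m) hN A hA hAS
  · intro N hN A hA
    exact low_int hN A hA
  · intro N hN
    exact up hN
  · intro N hN e C he hC
    exact up_pi hN he hC
  · intro b hb
    exact ⟨fun k hk A hA => kappa_up hb hk A hA, fun k hk1 hk => kappa_low hb hk1 hk⟩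
  · intro k n α b hα0 hα hb
    exact ⟨fun hk hn A hA hAp => thr_up hk hα hb hn A hA hAp,
      fun hk hn1 hn => thr_low hn1 hα0 hα hb hk hn⟩

end Pool.Agent.Results.MP_120218_co.BourgainChangSharp
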