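import Pool.Agent.N332.GK.Final
import Pool.Agent.N332.GK.Small

set_option autoImplicit false

/-!
# MP_120218_co: `k`-fold sums against `n`-fold products with the sharp `L^{2k}` constant, all `k`

There is an absolute constant `K` such that for all `k ≥ 3`, all `n ≥ k`, every real `β` with
`n ^ β ≥ c(k) = (2 (2 k - 1)) ^ k / C(2k, k)` and every nonempty finite set `A` of integers
`|A| ^ (k + β) ≤ K ^ (k + β) |kA| |A ^ n| ^ β`. In particular for every `N ≥ 3`
`max(|NA|, |A ^ N|) ≥ (|A| / K) ^ (log N / (log log N + 1))`.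

Method. Let `p` be a large prime and `C` the set of classes mod a power of `p` of the part `f` of a
nonnegative trigonometric polynomial with the class `0` removed, `g` the class `0`. The theorem
rests on the inequality `‖g + f‖² ≤ ‖g‖² + c ‖f‖² + o(‖f‖²)` in `L^{2k}` with
`c = 2 (2 k - 1) / C(2k, k)^(1/k)` (this `c` cannot be made smaller) instead of `c = 2 k - 1`, with
an explicit error term which is uniform in `k`. It comes from a recursive lower bound for the class
`0` of `f ^ (2 j)`, `F_j ≥ ((2 j - 1) / j) μ F_{j-1} + c_j w F_{j-2}`, `μ = ∑ |f_c|²`,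
`w = ∑ |V_r|²` (a weighted class sum of pairs), proved on the level of zero-sum words by the
weighted theorem of Mantel on triangle-free graphs.
-/

namespace Pool.Agent.Results.MP_120218_co.NewExponents

open Finset

theorem result :
    ∃ K : ℝ, 1 ≤ K ∧
      (∀ k : ℕ, 3 ≤ k → ∀ n : ℕ, k ≤ n → ∀ A : Finset ℤ, A.Nonempty →
        (∀ β : ℝ, (2 * (2 * (k : ℝ) - 1)) ^ k / ((2 * k).choose k : ℝ) ≤ (n : ℝ) ^ β →
          (A.card : ℝ) ^ ((k : ℝ) + β) ≤ K ^ ((k : ℝ) + β) *
            ((((Fintype.piFinset fun _ : Fin k => A).image fun w => ∑ i, w i).card : ℝ) *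
              (((Fintype.piFinset fun _ : Fin n => A).image fun w => ∏ i, w i).card : ℝ) ^ β)) ∧
        ((A.card : ℝ) / K) ^
            ((k * Real.log n + Real.log ((2 * (2 * (k : ℝ) - 1)) ^ k / ((2 * k).choose k : ℝ))) /
              (Real.log n +
                Real.log ((2 * (2 * (k : ℝ) - 1)) ^ k / ((2 * k).choose k : ℝ)))) ≤
          max (((Fintype.piFinset fun _ : Fin n => A).image fun w => ∑ i, w i).card : ℝ)
            (((Fintype.piFinset fun _ : Fin n => A).image fun w => ∏ i, w i).card : ℝ)) ∧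
      (∀ N : ℕ, 3 ≤ N → ∀ A : Finset ℤ, A.Nonempty →
        ((A.card : ℝ) / K) ^ (Real.log N / (Real.log (Real.log N) + 1)) ≤
          max (((Fintype.piFinset fun _ : Fin N => A).image fun w => ∑ i, w i).card : ℝ)
            (((Fintype.piFinset fun _ : Fin N => A).image fun w => ∏ i, w i).card : ℝ)) := by
  obtain ⟨K1, h1, H1⟩ := Pool.Agent.N332.GK.small345
  obtain ⟨K2, h2, H2⟩ := Pool.Agent.N332.GK.maink
  have hc : ∀ k : ℕ, (2 * (2 * (k : ℝ) - 1)) ^ k / ((2 * k).choose k : ℝ) =
      Pool.Agent.N332.GK.cK k := fun k => rfl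
  have hbeta : ∀ {n : ℕ} {c β : ℝ}, 3 ≤ n → 1 < c → c ≤ (n : ℝ) ^ β → 0 ≤ β := by
    intro n c β hn hc h
    by_contra hneg
    push Not at hneg
    have hn1 : (1:ℝ) < n := by exact_mod_cast (by omega : 1 < n)
    have := Real.rpow_lt_one_of_one_lt_of_neg hn1 hneg
    linarith
  have hexp : ∀ {n k : ℕ}, 3 ≤ n → 3 ≤ k →
      0 ≤ (k * Real.log n + Real.log (Pool.Agent.N332.GK.cK k)) /
        (Real.log n + Real.log (Pool.Agent.N332.GK.cK k)) := by
    intro n k hn hk
    have hn1 : (1:ℝ) < n := by exact_mod_cast (by omega : 1 < n)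
    have := Real.log_pos hn1
    have := Real.log_pos (Pool.Agent.N332.GK.one_lt_cK hk)
    positivity
  set K := max K1 K2 with hK
  have e1 : K1 ≤ K := le_max_left _ _
  have e2 : K2 ≤ K := le_max_right _ _
  have hK1 : 1 ≤ K := h1.trans e1
  have mono1 : ∀ {a x y : ℝ}, 1 ≤ a → a ≤ K → 0 ≤ x → 0 ≤ y → a ^ x * y ≤ K ^ x * y :=
    fun ha hab hx hy =>
      mul_le_mul_of_nonneg_right (Real.rpow_le_rpow (by linarith) hab hx) hy
  have mono2 : ∀ {a e M : ℝ} {A : Finset ℤ}, 1 ≤ a → a ≤ K → 0 ≤ e →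
      ((A.card : ℝ) / a) ^ e ≤ M → ((A.card : ℝ) / K) ^ e ≤ M := by
    intro a e M A ha hab he h
    refine le_trans (Real.rpow_le_rpow (by positivity) ?_ he) h
    exact div_le_div_of_nonneg_left (by positivity) (by linarith) hab
  have part1 : ∀ k : ℕ, 3 ≤ k → ∀ n : ℕ, k ≤ n → ∀ A : Finset ℤ, A.Nonempty →
        (∀ β : ℝ, (2 * (2 * (k : ℝ) - 1)) ^ k / ((2 * k).choose k : ℝ) ≤ (n : ℝ) ^ β →
          (A.card : ℝ) ^ ((k : ℝ) + β) ≤ K ^ ((k : ℝ) + β) *
            ((((Fintype.piFinset fun _ : Fin k => A).image fun w => ∑ i, w i).card : ℝ) *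
              (((Fintype.piFinset fun _ : Fin n => A).image fun w => ∏ i, w i).card : ℝ) ^ β)) ∧
        ((A.card : ℝ) / K) ^
            ((k * Real.log n + Real.log ((2 * (2 * (k : ℝ) - 1)) ^ k / ((2 * k).choose k : ℝ))) /
              (Real.log n +
                Real.log ((2 * (2 * (k : ℝ) - 1)) ^ k / ((2 * k).choose k : ℝ)))) ≤
          max (((Fintype.piFinset fun _ : Fin n => A).image fun w => ∑ i, w i).card : ℝ)
            (((Fintype.piFinset fun _ : Fin n => A).image fun w => ∏ i, w i).card : ℝ) := by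
    intro k hk n hkn A hA
    have hn3 : 3 ≤ n := hk.trans hkn
    have hcK := Pool.Agent.N332.GK.one_lt_cK hk
    by_cases hk6 : 6 ≤ k
    · obtain ⟨a1, a2⟩ := H2 k hk6 n hkn A hA
      refine ⟨fun β hβ => (a1 β hβ).trans ?_, ?_⟩
      · have hb := hbeta hn3 hcK hβ
        exact mono1 h2 e2 (by positivity) (by positivity)
      · exact mono2 h2 e2 (hexp hn3 hk) a2
    · obtain ⟨a1, a2⟩ := H1 k hk (by omega) n hkn A hA
      refine ⟨fun β hβ => (a1 β hβ).trans ?_, ?_⟩
      · have hb := hbeta hn3 hcK hβ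
        exact mono1 h1 e1 (by positivity) (by positivity)
      · exact mono2 h1 e1 (hexp hn3 hk) a2
  refine ⟨K, hK1, part1, ?_⟩
  intro N hN A hA
  obtain ⟨k, hk3, hkN, hle⟩ := Pool.Agent.N332.GK.expo hN
  have hmax := (part1 k hk3 N hkN A hA).2
  rw [hc] at hmax
  have hM : (1:ℝ) ≤ max (((Fintype.piFinset fun _ : Fin N => A).image fun w => ∑ i, w i).card : ℝ)
            (((Fintype.piFinset fun _ : Fin N => A).image fun w => ∏ i, w i).card : ℝ) := by
    refine le_max_of_le_left ?_
    have : ((Fintype.piFinset fun _ : Fin N => A).image fun w => ∑ i, w i).Nonempty := by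
      obtain ⟨a, ha⟩ := hA
      exact ⟨_, Finset.mem_image_of_mem _ (Fintype.mem_piFinset.2 fun _ => ha)⟩
    exact_mod_cast this.card_pos
  have hN3 : (3:ℝ) ≤ N := by exact_mod_cast hN
  have hlN : 1 < Real.log N := by
    have e1 := Real.exp_one_lt_d9
    rw [Real.lt_log_iff_exp_lt (by linarith)]
    linarith
  have hpos : 0 ≤ Real.log N / (Real.log (Real.log N) + 1) := by
    have := Real.log_pos hlN
    positivity
  by_cases hAK : 1 ≤ (A.card : ℝ) / K
  · exact (Real.rpow_le_rpow_of_exponent_le hAK hle).trans hmax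
  · push Not at hAK
    exact (Real.rpow_le_one (by positivity) hAK.le hpos).trans hM

end Pool.Agent.Results.MP_120218_co.NewExponents
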