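import Pool.Agent.Y359.DB.Growth

/-!
# Bounded factorisations, or growing sumsets

For a finite set `A` of integers and `m ≤ log |A|`: either EVERY nonzero integer `u` has at most
`C |A| ^ ε` representations `u = a_1 ⋯ a_k` with `a_i ∈ A` (so the product map loses nothing on any
set of `k`-tuples: this is a statement in sup norm about the fibres), or the `m`-fold sumset has at
least `|A| ^ (1 + c log m)` elements.
-/

set_option autoImplicit false

namespace Pool.Agent.Results.MP_120218_co.PointwiseGrowth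

open Finset

theorem result (k : ℕ) (hk : 1 ≤ k) (ε : ℝ) (hε : 0 < ε) :
    ∃ c : ℝ, 0 < c ∧ ∀ A : Finset ℤ, A.Nonempty → ∀ m : ℕ, 2 ≤ m → (m : ℝ) ≤ Real.log A.card →
      ((∀ u : ℤ, u ≠ 0 →
          c * (((Fintype.piFinset fun _ : Fin k => A).filter fun f => ∏ i, f i = u).card : ℝ) ≤
            (A.card : ℝ) ^ ε) ∧
        ∀ H : Finset (Fin k → ℤ), (∀ f ∈ H, (∀ i, f i ∈ A) ∧ ∏ i, f i ≠ 0) →
          c * (H.card : ℝ) ≤ (A.card : ℝ) ^ ε * ((H.image fun f => ∏ i, f i).card : ℝ)) ∨
      (A.card : ℝ) ^ (1 + c * Real.log m) ≤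
        ((Fintype.piFinset fun _ : Fin m => A).image fun f => ∑ i, f i).card := by
  obtain ⟨c, hc, h⟩ := Pool.Agent.Y359.DB.growth_fac k hk ε hε
  refine ⟨c, hc, ?_⟩
  intro A hA m hm hmA
  rcases h A hA m hm hmA with h1 | h1
  · left
    refine ⟨fun u hu => h1 u hu, fun H hH => ?_⟩
    have h2 := Pool.Agent.Y359.DB.card_le_image_mul A H ((A.card : ℝ) ^ ε / c) hH (fun u hu => by
      rw [le_div_iff₀ hc, mul_comm]
      exact h1 u hu)
    calc c * (H.card : ℝ) ≤ c * (((H.image fun f => ∏ i, f i).card : ℝ) * ((A.card : ℝ) ^ ε / c)) :=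
          mul_le_mul_of_nonneg_left h2 hc.le
      _ = (A.card : ℝ) ^ ε * ((H.image fun f => ∏ i, f i).card : ℝ) := by
          field_simp
  · right
    exact h1

end Pool.Agent.Results.MP_120218_co.PointwiseGrowth
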