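import Pool.Agent.N811.SP.Final2
import Pool.Agent.H201R3.SPk.G
import Pool.Agent.H449R3.SPkH
import Pool.Agent.H224R3.SPk.TaskI

/-!
# Sums versus iterated products with the exponent `log (2k-1) / log n`

For `k ≥ 3`, `n ≥ 2`, `(k, n) ≠ (3, 2)` and `n ^ β ≥ 2k - 1` every finite nonempty set `A` of positive
integers satisfies `|A| ^ (k (1 + β)) ≤ |kA| |A^n| ^ (k β)`. The starting file
`SumsVersusIteratedProducts` needs the stronger condition `(n - (n-1)/(2k-1)) ^ β ≥ 2k - 1`.

Method. Let `K = 2k - 1`, let `g`, `f` be trigonometric polynomials with frequencies divisible and not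
divisible by `m`. A differential inequality of the second order for `‖g + s f‖_(2k)` gives
`‖g + f‖ ≤ ‖g‖ (1 + log cosh (K ‖f‖ / ‖g‖) / K)`. The tangents of its square as a function of
`‖f‖² / ‖g‖²` are inequalities `‖g + f‖² ≤ a ‖g‖² + b ‖f‖²`, and with the best of them the part of `A`
with larger valuation satisfies `R(A') ≤ D(√Q)² R(A)`, `Q = R(A₀) / R(A)`, where
`D(B) = 1 - ((1+B) log (1+B) + (1-B) log (1-B)) / (2K)`. The induction over valuation classes then
needs `D(√Q)² (1-u)^(nβ) ≤ (1 - (Q u^β)^(1/(1+β)))^(1+β)`, and this holds exactly up to the exponent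
`n^β = K`: it is proved along the curve of the tangency points.
-/

set_option autoImplicit false

namespace Pool.Agent.Results.MP_120218_co.SharpIteratedProducts

open Finset Pool.Agent.H384R3.SPk Pool.Agent.N811.SP

/-- a rational lower bound of the exponent -/
theorem num {k N : ℕ} (hk : 3 ≤ k) (hle : k ≤ N) {a b : ℕ} (hb : 0 < b) (hab : b ≤ a)
    (hak : a ≤ b * k) (hpow : (2 * k - 1) ^ (k * (a - b)) ≤ N ^ (b * k - a))
    (A : Finset ℤ) (hA : A.Nonempty) :
    ((A.card : ℝ) / 3) ^ ((a : ℝ) / b) ≤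
      max ((sumset N A).card : ℝ) ((prodset fun _ : Fin N => A).card : ℝ) := by
  have hk2 : (3:ℝ) ≤ k := by exact_mod_cast hk
  have hN3 : (3:ℝ) ≤ N := by exact_mod_cast (hk.trans hle)
  have hc0 : (0:ℝ) < 2 * k - 1 := by linarith
  have hlog : 0 < Real.log N := Real.log_pos (by linarith)
  have hlk : 0 < Real.log (2 * k - 1) := Real.log_pos (by linarith)
  have hb0 : (0:ℝ) < b := by exact_mod_cast hb
  rcases le_or_gt (1:ℝ) ((A.card : ℝ) / 3) with h1 | h1
  · refine le_trans (Real.rpow_le_rpow_of_exponent_le h1 ?_)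
      (max_log Pool.Agent.H201R3.SPk.taskG Pool.Agent.H449R3.SPkH.taskH hk hle A hA)
    have hp : ((2 * (k:ℝ) - 1)) ^ (k * (a - b)) ≤ (N:ℝ) ^ (b * k - a) := by
      have : (((2 * k - 1) ^ (k * (a - b)) : ℕ) : ℝ) ≤ ((N ^ (b * k - a) : ℕ) : ℝ) := by
        exact_mod_cast hpow
      push_cast [Nat.cast_sub (by omega : 1 ≤ 2 * k)] at this
      exact this
    have hl := Real.log_le_log (by positivity) hp
    rw [Real.log_pow, Real.log_pow] at hl
    push_cast [Nat.cast_sub hab, Nat.cast_sub hak] at hl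
    rw [div_le_div_iff₀ hb0 (by positivity), Real.log_mul hc0.ne' (by linarith)]
    linarith
  · have h2 : ((A.card : ℝ) / 3) ^ ((a : ℝ) / b) ≤ 1 :=
      Real.rpow_le_one (by positivity) h1.le (by positivity)
    refine h2.trans (le_max_of_le_left ?_)
    exact_mod_cast card_pos_sum N hA

set_option exponentiation.threshold 5000 in
/-- Sums versus iterated products, sharp exponent. -/
theorem result :
    -- (1) one set of positive integers, and one arbitrary finite set of integers
    (∀ (k n : ℕ) (β : ℝ), 3 ≤ k → 2 ≤ n → 6 ≤ k + n → 0 < β → (2 * k - 1 : ℝ) ≤ (n : ℝ) ^ β →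
      ∀ A : Finset ℤ, A.Nonempty →
        ((∀ a ∈ A, 0 < a) →
          (A.card : ℝ) ^ ((k : ℝ) * (1 + β)) ≤
            (((Fintype.piFinset fun _ : Fin k => A).image fun f => ∑ i, f i).card : ℝ) *
            (((Fintype.piFinset fun _ : Fin n => A).image fun f => ∏ i, f i).card : ℝ) ^
              ((k : ℝ) * β)) ∧
        (A.card : ℝ) ^ ((k : ℝ) * (1 + β)) ≤ 3 ^ ((k : ℝ) * (1 + β)) *
          ((((Fintype.piFinset fun _ : Fin k => A).image fun f => ∑ i, f i).card : ℝ) *
            (((Fintype.piFinset fun _ : Fin n => A).image fun f => ∏ i, f i).card : ℝ) ^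
              ((k : ℝ) * β))) ∧
    -- (2) the case `n = 2k - 1`
    (∀ k : ℕ, 3 ≤ k → ∀ A : Finset ℤ, A.Nonempty → (∀ a ∈ A, 0 < a) →
      A.card ^ (2 * k) ≤ ((Fintype.piFinset fun _ : Fin k => A).image fun f => ∑ i, f i).card *
        ((Fintype.piFinset fun _ : Fin (2 * k - 1) => A).image fun f => ∏ i, f i).card ^ k) ∧
    -- (3) several sets of positive integers
    (∀ (k n : ℕ) (β : ℝ), 3 ≤ k → 2 ≤ n → 6 ≤ k + n → (2 * k - 1 : ℝ) ≤ (n : ℝ) ^ β →
      ∀ A : Fin n → Finset ℤ, (∀ i, (A i).Nonempty) → (∀ i, ∀ a ∈ A i, 0 < a) →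
        ∏ i, ((A i).card : ℝ) ^ ((k : ℝ) * (1 + β)) ≤
          (∏ i, (((Fintype.piFinset fun _ : Fin k => A i).image fun f => ∑ j, f j).card : ℝ)) *
          (((Fintype.piFinset A).image fun f => ∏ i, f i).card : ℝ) ^ ((k : ℝ) * n * β)) ∧
    -- (4) sums of dilates of different sets of positive integers
    (∀ (k m : ℕ) (β : ℝ), 3 ≤ k → 1 ≤ m → (2 * k - 1 : ℝ) ≤ (m * k : ℝ) ^ β →
      ∀ l : Fin k → ℤ, (∀ i, l i ≠ 0) →
      ∀ A : Fin k → Finset ℤ, (∀ i, (A i).Nonempty) → (∀ i, ∀ a ∈ A i, 0 < a) →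
        ∏ i, ((A i).card : ℝ) ^ (1 + β) ≤
          (((Fintype.piFinset A).image fun f => ∑ i, l i * f i).card : ℝ) *
          (((Fintype.piFinset fun p : Fin m × Fin k => A p.2).image fun f => ∏ p, f p).card : ℝ) ^
            ((k : ℝ) * β)) ∧
    -- (5) the maximum of `|NA|` and `|A^N|`
    (∀ k N : ℕ, 3 ≤ k → k ≤ N → ∀ A : Finset ℤ, A.Nonempty →
      ((A.card : ℝ) / 3) ^ ((k : ℝ) * Real.log ((2 * k - 1) * N) /
          (Real.log N + k * Real.log (2 * k - 1))) ≤
        max (((Fintype.piFinset fun _ : Fin N => A).image fun f => ∑ i, f i).card : ℝ)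
          (((Fintype.piFinset fun _ : Fin N => A).image fun f => ∏ i, f i).card : ℝ)) ∧
    -- (6) the exponents for `N = 5, ..., 10`
    (∀ p ∈ ([(5, 1.514), (6, 1.561), (7, 1.601), (8, 1.636), (9, 5 / 3), (10, 1.693)] :
        List (ℕ × ℝ)), ∀ A : Finset ℤ, A.Nonempty →
      ((A.card : ℝ) / 3) ^ p.2 ≤
        max (((Fintype.piFinset fun _ : Fin p.1 => A).image fun f => ∑ i, f i).card : ℝ)
          (((Fintype.piFinset fun _ : Fin p.1 => A).image fun f => ∏ i, f i).card : ℝ)) := by
  refine ⟨?_, ?_, ?_, ?_, ?_, ?_⟩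
  · intro k n β hk hn hkn hβ h A hA
    exact ⟨fun hAp => single2 hk hn hkn h A hA hAp,
      single_all2 Pool.Agent.H201R3.SPk.taskG hk hn hkn hβ.le h A hA⟩
  · intro k hk A hA hAp
    have h1 : (2 * k - 1 : ℝ) ≤ ((2 * k - 1 : ℕ) : ℝ) ^ (1:ℝ) := by
      rw [Real.rpow_one]
      push_cast [Nat.cast_sub (by omega : 1 ≤ 2 * k)]
      exact le_rfl
    have := single2 hk (by omega) (by omega) h1 A hA hAp
    have e1 : (k : ℝ) * (1 + 1) = ((2 * k : ℕ) : ℝ) := by push_cast; ring
    rw [e1, mul_one, Real.rpow_natCast, Real.rpow_natCast] at this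
    exact_mod_cast this
  · intro k n β hk hn hkn h A hA hAp
    exact family2 hk hn hkn h A hA hAp
  · intro k m β hk hm h l hl A hA hAp
    exact mix2 Pool.Agent.H224R3.SPk.taskI hk hm h l hl A hA hAp
  · intro k N hk hN A hA
    exact max_log Pool.Agent.H201R3.SPk.taskG Pool.Agent.H449R3.SPkH.taskH hk hN A hA
  · intro p hp A hA
    simp only [List.mem_cons, List.not_mem_nil, or_false] at hp
    rcases hp with rfl | rfl | rfl | rfl | rfl | rfl
    · have := num (k := 4) (N := 5) (a := 757) (b := 500) (by norm_num) (by norm_num) (by norm_num)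
        (by norm_num) (by norm_num) (by norm_num) A hA
      norm_num at this ⊢
      exact this
    · have := num (k := 4) (N := 6) (a := 1561) (b := 1000) (by norm_num) (by norm_num) (by norm_num)
        (by norm_num) (by norm_num) (by norm_num) A hA
      norm_num at this ⊢
      exact this
    · have := num (k := 5) (N := 7) (a := 1601) (b := 1000) (by norm_num) (by norm_num) (by norm_num)
        (by norm_num) (by norm_num) (by norm_num) A hA
      norm_num at this ⊢
      exact this
    · have := num (k := 5) (N := 8) (a := 409) (b := 250) (by norm_num) (by norm_num) (by norm_num)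
        (by norm_num) (by norm_num) (by norm_num) A hA
      norm_num at this ⊢
      exact this
    · have := num (k := 5) (N := 9) (a := 5) (b := 3) (by norm_num) (by norm_num) (by norm_num)
        (by norm_num) (by norm_num) (by norm_num) A hA
      norm_num at this ⊢
      exact this
    · have := num (k := 5) (N := 10) (a := 1693) (b := 1000) (by norm_num) (by norm_num)
        (by norm_num) (by norm_num) (by norm_num) (by norm_num) A hA
      norm_num at this ⊢
      exact this

end Pool.Agent.Results.MP_120218_co.SharpIteratedProducts
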